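import Mathlib

set_option autoImplicit false

namespace Pool.Agent.Results.MP_59b615_al.Never

open Set Filter Topology Pointwise

/-- Positive integers all of whose prime factors lie in `Q`. -/
def Qs (Q : Set ℕ) : Set ℕ := {m | 0 < m ∧ ∀ p, p.Prime → p ∣ m → p ∈ Q}

def emb (Q : Set ℕ) (n : ℤ) : ∀ m : Qs Q, ZMod m := fun _ => n

/-- The topology induced from the product of the discrete groups `ℤ/m`. -/
def tau (Q : Set ℕ) : TopologicalSpace ℤ := TopologicalSpace.induced (emb Q) inferInstance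

def UBQ (Q : Set ℕ) (𝓐 : Set (Set ℤ)) : Prop :=
  ∃ K : Set ℤ, @IsCompact ℤ (tau Q) K ∧ ∀ A ∈ 𝓐, ∃ k : ℤ, ∀ a ∈ A, a - k ∈ K

noncomputable def dS (S : Set ℤ) (n m : ℤ) : ℕ∞ :=
  ⨅ l : {l : List ℤ // (∀ s ∈ l, s ∈ S ∨ -s ∈ S) ∧ l.sum = n - m}, (l.1.length : ℕ∞)

def UBS (S : Set ℤ) (𝓐 : Set (Set ℤ)) : Prop :=
  ∃ R : ℕ, ∀ A ∈ 𝓐, ∀ x ∈ A, ∀ y ∈ A, dS S x y ≤ R

def Controlled (U V : Set (Set ℤ) → Prop) (f : ℤ → ℤ) : Prop :=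
  ∀ 𝓐, U 𝓐 → V ((fun A => f '' A) '' 𝓐)

def Close (U : Set (Set ℤ) → Prop) (f g : ℤ → ℤ) : Prop := U (range fun x => {f x, g x})

def Cp (Q : Set ℕ) (K : Set ℤ) : Prop := IsCompact (emb Q '' K)

lemma cp_iff (Q : Set ℕ) (K : Set ℤ) : @IsCompact ℤ (tau Q) K ↔ Cp Q K :=
  @IsInducing.isCompact_iff ℤ _ (tau Q) _ K (emb Q) (@IsInducing.mk _ _ (tau Q) _ _ rfl)

lemma emb_sub (Q : Set ℕ) (a b : ℤ) : emb Q (a - b) = emb Q a - emb Q b := by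
  funext m; simp [emb]

lemma Cp.sub {Q : Set ℕ} {K L : Set ℤ} (hK : Cp Q K) (hL : Cp Q L) : Cp Q (K - L) := by
  have : emb Q '' (K - L) = (fun x : _ × _ => x.1 - x.2) '' ((emb Q '' K) ×ˢ (emb Q '' L)) := by
    ext y
    constructor
    · rintro ⟨_, ⟨a, ha, b, hb, rfl⟩, rfl⟩
      exact ⟨(emb Q a, emb Q b), ⟨⟨a, ha, rfl⟩, b, hb, rfl⟩, (emb_sub Q a b).symm⟩
    · rintro ⟨⟨_, _⟩, ⟨⟨a, ha, rfl⟩, b, hb, rfl⟩, rfl⟩
      exact ⟨a - b, ⟨a, ha, b, hb, rfl⟩, emb_sub Q a b⟩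
  unfold Cp
  rw [this]
  exact (hK.prod hL).image continuous_sub

lemma mul_mem {Q : Set ℕ} {a b : ℕ} (ha : a ∈ Qs Q) (hb : b ∈ Qs Q) : a * b ∈ Qs Q :=
  ⟨Nat.mul_pos ha.1 hb.1, fun p hp h => ((Nat.Prime.dvd_mul hp).mp h).elim (ha.2 p hp) (hb.2 p hp)⟩

lemma one_mem (Q : Set ℕ) : 1 ∈ Qs Q :=
  ⟨one_pos, fun _ hp h => absurd (Nat.dvd_one.mp h) hp.ne_one⟩

lemma escape {Q : Set ℕ} {p : ℕ} (hp : p.Prime) (hpQ : p ∈ Q) {L : Set ℤ} (hL : Cp Q L)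
    (M : Qs Q) : ∃ x : ℤ, (M : ℤ) ∣ x ∧ x ∉ L := by
  by_contra hcon
  push Not at hcon
  have hM : ∀ i, M * p ^ i ∈ Qs Q := fun i => mul_mem M.2 ⟨pow_pos hp.pos i, fun q hq h => by
    rwa [(Nat.prime_dvd_prime_iff_eq hq hp).mp (hq.dvd_of_dvd_pow h)]⟩
  let F : ℕ → Set (∀ m : Qs Q, ZMod m) := fun i =>
    {y | y M = 0 ∧ ((p : ZMod (M * p ^ i)) ^ 2 - 1) * y ⟨_, hM i⟩ + (M : ℕ) = 0}
  have hF : ∀ i, IsClosed (F i) := fun i => by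
    have c1 := (isClosed_discrete {t : ZMod M | t = 0}).preimage
      (continuous_apply (A := fun m : Qs Q => ZMod m) M)
    have c2 := (isClosed_discrete {t : ZMod (M * p ^ i) |
      ((p : ZMod (M * p ^ i)) ^ 2 - 1) * t + (M : ℕ) = 0}).preimage
      (continuous_apply (A := fun m : Qs Q => ZMod m) ⟨_, hM i⟩)
    exact c1.inter c2
  have hmem : ∀ i (x : ℤ), emb Q x ∈ F i ↔
      (M : ℤ) ∣ x ∧ ((M * p ^ i : ℕ) : ℤ) ∣ ((p : ℤ) ^ 2 - 1) * x + (M : ℕ) := by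
    intro i x
    rw [← ZMod.intCast_zmod_eq_zero_iff_dvd, ← ZMod.intCast_zmod_eq_zero_iff_dvd]
    push_cast
    rfl
  obtain ⟨_, ⟨x, -, rfl⟩, hx⟩ := hL.inter_iInter_nonempty F hF (fun u => by
    refine ⟨emb Q (M * ∑ j ∈ Finset.range (u.sup id), ((p : ℤ) ^ 2) ^ j),
      mem_image_of_mem _ (hcon _ (dvd_mul_right _ _)), mem_iInter₂.mpr fun i hi => ?_⟩
    rw [hmem]
    refine ⟨dvd_mul_right _ _, ?_⟩
    have h1 := mul_geom_sum ((p : ℤ) ^ 2) (u.sup id)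
    have h2 : i ≤ u.sup id := Finset.le_sup (f := id) hi
    rw [mul_left_comm, h1, ← pow_mul]
    push_cast
    rw [show (M : ℤ) * (p ^ (2 * u.sup id) - 1) + M = M * p ^ (2 * u.sup id) by ring]
    exact mul_dvd_mul_left _ (pow_dvd_pow _ (by omega)))
  simp only [mem_iInter, hmem] at hx
  obtain ⟨y, rfl⟩ := (hx 0).1
  have hM0 : ((M : ℕ) : ℤ) ≠ 0 := by exact_mod_cast M.2.1.ne'
  have h3 : ∀ i, (p : ℤ) ^ i ∣ ((p : ℤ) ^ 2 - 1) * y + 1 := fun i => by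
    have := (hx i).2
    push_cast at this
    rwa [show ((p : ℤ) ^ 2 - 1) * (M * y) + M = M * (((p : ℤ) ^ 2 - 1) * y + 1) by ring,
      mul_dvd_mul_iff_left hM0] at this
  have h2 : (2 : ℤ) ≤ p := by exact_mod_cast hp.two_le
  have h4 : ((p : ℤ) ^ 2 - 1) * y + 1 = 0 := by
    generalize ((p : ℤ) ^ 2 - 1) * y + 1 = w at h3
    refine Int.eq_zero_of_abs_lt_dvd (h3 w.natAbs) ?_
    rw [Int.abs_eq_natAbs]
    exact_mod_cast Nat.lt_pow_self hp.one_lt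
  have h5 : (p : ℤ) ^ 2 - 1 ∣ 1 := ⟨-y, by linarith⟩
  have := Int.le_of_dvd one_pos h5
  nlinarith

theorem result (Q : Set ℕ) (hQ : ∀ p ∈ Q, p.Prime) (hne : Q.Nonempty) (S : Set ℤ) :
    ¬ ∃ f g : ℤ → ℤ, Controlled (UBQ Q) (UBS S) f ∧ Controlled (UBS S) (UBQ Q) g ∧
      Close (UBQ Q) (g ∘ f) id := by
  rintro ⟨f, g, hf, hg, K, hK, hgf⟩
  obtain ⟨p, hp⟩ := hne
  have h1 := fun r : ℕ => hg {A | ∀ x ∈ A, ∀ y ∈ A, dS S x y ≤ r} ⟨r, fun _ h => h⟩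
  choose Kr hKr h1 using h1
  rw [cp_iff] at hK
  simp only [cp_iff] at hKr
  have hd : ∀ x, g (f x) - x ∈ K - K := fun x => by
    obtain ⟨k, hk⟩ := hgf _ ⟨x, rfl⟩
    exact ⟨_, hk (g (f x)) (Or.inl rfl), _, hk x (Or.inr rfl), by simp⟩
  haveI : Nonempty (Qs Q) := ⟨⟨1, one_mem Q⟩⟩
  obtain ⟨e, he⟩ := exists_surjective_nat (Qs Q)
  have hM : ∀ r, ∏ j ∈ Finset.range r, (e j : ℕ) ∈ Qs Q := fun r => by
    induction r with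
    | zero => exact one_mem Q
    | succ r ih => rw [Finset.prod_range_succ]; exact mul_mem ih (e r).2
  have h2 := fun r => escape (hQ p hp) hp
    (((hKr r).sub (hKr r)).sub ((hK.sub hK).sub (hK.sub hK))) ⟨_, hM r⟩
  choose x hx hxL using h2
  have h3 : Tendsto (fun r => emb Q (x r)) atTop (𝓝 (emb Q 0)) := by
    refine tendsto_pi_nhds.mpr fun m => tendsto_const_nhds.congr' ?_
    obtain ⟨j, rfl⟩ := he m
    filter_upwards [eventually_gt_atTop j] with r hr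
    simp only [emb, Int.cast_zero]
    refine ((ZMod.intCast_zmod_eq_zero_iff_dvd _ _).mpr (dvd_trans ?_ (hx r))).symm
    exact Int.natCast_dvd_natCast.mpr (Finset.dvd_prod_of_mem _ (Finset.mem_range.mpr hr))
  have h4 : Cp Q (insert 0 (range x)) := by
    unfold Cp
    rw [image_insert_eq, ← range_comp]
    exact h3.isCompact_insert_range
  obtain ⟨r, hr⟩ := hf {insert 0 (range x)} ⟨_, (cp_iff _ _).mpr h4, fun A hA => ⟨0, by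
    rw [hA]; simp⟩⟩
  obtain ⟨k, hk⟩ := h1 r _ ⟨_, hr _ ⟨_, rfl, rfl⟩, rfl⟩
  apply hxL r
  refine ⟨_, ⟨_, hk (g (f (x r))) ⟨_, ⟨_, Or.inr ⟨r, rfl⟩, rfl⟩, rfl⟩, _,
    hk (g (f 0)) ⟨_, ⟨_, Or.inl rfl, rfl⟩, rfl⟩, rfl⟩, _, ⟨_, hd (x r), _, hd 0, rfl⟩, ?_⟩
  simp

end Pool.Agent.Results.MP_59b615_al.Never
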